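import Pool.Agent.H3.HB.Blk
import Pool.Agent.H36.NW.BLU
import Pool.Agent.H49.NW.BLL

/-!
# Theorem (H0) (MP_c59857_nt), part (e): the inequality of Bessel below the logarithm
-/

set_option autoImplicit false

namespace Pool.Agent.H3.HB

open Finset Pool.Agent.H6.N4D Pool.Agent.H93 Pool.Agent.H6.G9 Pool.Agent.H6.G0
  Pool.Agent.H28.NW Pool.Agent.H3.GW Pool.Agent.H93.HB

lemma one_le_log {X : ℕ} (hX : 3 ≤ X) : 1 ≤ Real.log X := by
  have h1 : (3 : ℝ) ≤ X := by exact_mod_cast hX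
  rw [Real.le_log_iff_exp_le (by linarith)]
  have := Real.exp_one_lt_d9
  linarith

/-- the window `[1, X]` -/
noncomputable def w1 (X : ℕ) (hX : 3 ≤ X) : Wn where
  lo := 1
  hi := X
  one_le := le_rfl
  le := by omega
  big := by
    have h1 := one_le_log hX
    rw [Nat.cast_one, Real.log_one, sub_zero]
    calc Real.log X ^ (24 / 25 : ℝ) ≤ Real.log X ^ (1 : ℝ) :=
          Real.rpow_le_rpow_of_exponent_le h1 (by norm_num)
      _ = Real.log X := Real.rpow_one _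

lemma w1_L {X : ℕ} (hX : 3 ≤ X) : (w1 X hX).L = Real.log X := by
  unfold Wn.L w1
  simp

lemma w1_T {X : ℕ} (hX : 3 ≤ X) : (w1 X hX).T = Real.log X := rfl

lemma w1_wlg {X : ℕ} (hX : 3 ≤ X) (F : ℕ → ℝ) : wlg (w1 X hX) F = EB.lg X F := rfl

lemma w1_base {X : ℕ} (hX : 3 ≤ X) (lam : ℕ → ℝ) (R S : ℕ) (e : ℝ) :
    WBase lam R S e (w1 X hX) ↔ EB.Base lam R S e X := by
  unfold WBase EB.Base
  rw [w1_L hX]
  rfl

theorem bsr_of_w (h : W_BSR) : T_BSR := by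
  obtain ⟨B, C₀, hB, hC₀, h⟩ := h
  refine ⟨B, C₀, hB, hC₀, fun R P ε hε => ?_⟩
  obtain ⟨s₀, h⟩ := h R P ε hε
  refine ⟨s₀, fun s hs => ?_⟩
  obtain ⟨X₀, h⟩ := h s hs
  refine ⟨⌈Real.exp X₀⌉₊ + 3, fun X K lam e m hX hl he hb hm hm1 hm2 => ?_⟩
  have hX3 : 3 ≤ X := by omega
  have h1 : X₀ ≤ Real.log X := by
    rw [Real.le_log_iff_exp_le (by exact_mod_cast (by omega : 0 < X))]
    refine (Nat.le_ceil _).trans ?_
    exact_mod_cast (show ⌈Real.exp X₀⌉₊ ≤ X by omega)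
  have h2 := h (w1 X hX3) K lam e m (by rw [w1_L hX3]; exact h1) hl he
    ((w1_base hX3 lam R (2 ^ s) e).2 hb) hm hm1 (by rw [w1_L hX3]; exact hm2)
  rw [w1_L hX3] at h2
  exact h2

/-- the inequality of Bessel below the logarithm on windows -/
theorem bsrw (hB : T_BLO) (hU : T_UBR) (hN : T_NRS) : W_BSR :=
  bsrw_of (bli_of hB hU hN) hU Pool.Agent.H36.NW.BLU.pf_BLU Pool.Agent.H49.NW.pf_BLL

/-- the inequality of Bessel below the logarithm -/
theorem pf_BSR (hB : T_BLO) (hU : T_UBR) (hN : T_NRS) : T_BSR := bsr_of_w (bsrw hB hU hN)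

end Pool.Agent.H3.HB
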