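import Pool.Agent.H3.HB.Targets

/-!
# Theorem (H0) (MP_c59857_nt), part (e): from one block of integers to the logarithmic means
-/

set_option autoImplicit false

namespace Pool.Agent.H3.HB

open Finset Pool.Agent.H6.N4D Pool.Agent.H93 Pool.Agent.H6.G0 Pool.Agent.H28.NW
  Pool.Agent.H3.GW

/-- harmonic sums over the blocks of a window -/
theorem harm (N : ℕ) (X : Wn) (hN : 1 ≤ N) :
    ∑ i ∈ Icc (max 1 (X.lo / N)) (X.hi / N - 1), 1 / (i : ℝ) ≤ 2 + X.L := by
  rcases Nat.lt_or_ge (X.hi / N - 1) (max 1 (X.lo / N)) with h | h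
  · rw [Icc_eq_empty (by omega), sum_empty]
    have := X.L_nonneg
    linarith
  have ha : 1 ≤ max 1 (X.lo / N) := le_max_left _ _
  refine (Pool.Agent.H28.NW.sum_Icc_le _ _ ha h).trans ?_
  have har : (1 : ℝ) ≤ ((max 1 (X.lo / N) : ℕ) : ℝ) := by exact_mod_cast ha
  have h1 : 1 / ((max 1 (X.lo / N) : ℕ) : ℝ) ≤ 1 := by
    rw [div_le_one (by linarith)]
    exact har
  have hNr : (0 : ℝ) < N := by exact_mod_cast hN
  have hlo := X.lo_pos
  have hhi := X.hi_pos
  have hbr : (0 : ℝ) < ((X.hi / N - 1 : ℕ) : ℝ) := by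
    exact_mod_cast lt_of_lt_of_le (by omega) h
  have hb : ((X.hi / N - 1 : ℕ) : ℝ) ≤ X.hi / N := by
    have e1 : ((X.hi / N - 1 : ℕ) : ℝ) ≤ ((X.hi / N : ℕ) : ℝ) := by
      exact_mod_cast Nat.sub_le _ _
    exact e1.trans Nat.cast_div_le
  have hlogb : Real.log ((X.hi / N - 1 : ℕ) : ℝ) ≤ Real.log X.hi - Real.log N := by
    rw [← Real.log_div hhi.ne' hNr.ne']
    exact Real.log_le_log hbr hb
  have ha2 : (X.lo : ℝ) / N ≤ 2 * ((max 1 (X.lo / N) : ℕ) : ℝ) := by
    rw [div_le_iff₀ hNr]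
    have e2 : X.lo < (X.lo / N + 1) * N := by
      have := Nat.lt_div_mul_add (a := X.lo) hN
      linarith [Nat.add_mul (X.lo / N) 1 N]
    have e3 : X.lo ≤ 2 * max 1 (X.lo / N) * N := by
      refine e2.le.trans (Nat.mul_le_mul_right _ ?_)
      omega
    exact_mod_cast e3
  have hloga : Real.log X.lo - Real.log N ≤ Real.log 2 +
      Real.log ((max 1 (X.lo / N) : ℕ) : ℝ) := by
    rw [← Real.log_div hlo.ne' hNr.ne', ← Real.log_mul (by norm_num) (by linarith)]
    exact Real.log_le_log (by positivity) ha2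
  have h2 := Real.log_two_lt_d9
  unfold Wn.L
  linarith

theorem sq_two (M : ℕ) : (M + 1) ^ 2 ≤ 4 * 2 ^ M := by
  induction M with
  | zero => norm_num
  | succ M ih =>
    rcases Nat.lt_or_ge M 2 with h | h
    · interval_cases M <;> norm_num
    · rw [pow_succ 2 M]
      nlinarith

/-- sizes -/
theorem size_facts {M : ℕ} {l L : ℝ} (hl : 0 ≤ l) (hL : (4 : ℝ) ^ M ≤ L) :
    ((M : ℝ) + 1) * (1 + 2 * 2 ^ (M / 200) + 3 * M + l) ≤ (17 + l) * Real.sqrt L := by
  have hL0 : 0 < L := lt_of_lt_of_le (by positivity) hL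
  have h1 : (2 : ℝ) ^ M ≤ Real.sqrt L := by
    apply Real.le_sqrt_of_sq_le
    rw [← pow_mul, mul_comm, pow_mul]
    norm_num
    exact hL
  have h2 : ((M : ℝ) + 1) ^ 2 ≤ 4 * 2 ^ M := by exact_mod_cast sq_two M
  have h3 : ((2 : ℝ) ^ (M / 200)) ^ 2 ≤ 2 ^ M := by
    rw [← pow_mul]
    apply pow_le_pow_right₀ (by norm_num)
    omega
  have h4 : (M : ℝ) + 1 ≤ 2 ^ M := by
    have := Nat.lt_two_pow_self (n := M)
    exact_mod_cast this
  set A : ℝ := 2 ^ (M / 200) with hA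
  have hA0 : 0 < A := by positivity
  have hM0 : (0 : ℝ) ≤ M := Nat.cast_nonneg M
  have h5 : 0 ≤ ((M : ℝ) + 1 - A) ^ 2 := sq_nonneg _
  have h6 : ((M : ℝ) + 1) * l ≤ 2 ^ M * l := by gcongr
  calc ((M : ℝ) + 1) * (1 + 2 * A + 3 * M + l) ≤ (17 + l) * 2 ^ M := by nlinarith
    _ ≤ _ := by gcongr

lemma er_nonneg (lam : ℕ → ℝ) (R s : ℕ) (b : ℕ → ℕ → ℂ) (β : ℕ → ℕ → ℝ) (n : ℕ) :
    0 ≤ er lam R s b β n := by
  unfold er
  positivity

lemma ee_norm (x : ℝ) : ‖ee x‖ = 1 := by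
  unfold ee
  rw [Complex.norm_exp]
  simp

lemma er_le {lam : ℕ → ℝ} (hl : ∀ n, |lam n| ≤ 1) (R s : ℕ) {b : ℕ → ℕ → ℂ}
    (hb : ∀ n r, ‖b n r‖ ≤ 1) (β : ℕ → ℕ → ℝ) (n : ℕ) : er lam R s b β n ≤ (1 + R) ^ 2 := by
  unfold er
  rw [div_le_iff₀ (by positivity)]
  have h1 : ∀ m ∈ Ioc n (n + 2 ^ s),
      ‖(lam m : ℂ) - ∑ r ∈ range R, b n r * ee (β n r * m)‖ ^ 2 ≤ (1 + (R : ℝ)) ^ 2 := by
    intro m _
    apply pow_le_pow_left₀ (norm_nonneg _)
    refine (norm_sub_le _ _).trans ?_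
    apply add_le_add
    · rw [Complex.norm_real]
      exact hl m
    · refine (norm_sum_le _ _).trans ?_
      calc ∑ r ∈ range R, ‖b n r * ee (β n r * m)‖ ≤ ∑ _r ∈ range R, (1 : ℝ) := by
            refine sum_le_sum fun r _ => ?_
            rw [norm_mul, ee_norm, mul_one]
            exact hb n r
        _ = R := by simp
  refine (sum_le_sum h1).trans ?_
  rw [sum_const, Nat.card_Ioc, nsmul_eq_mul]
  have h2 : n + 2 ^ s - n = 2 ^ s := Nat.add_sub_cancel_left _ _
  rw [h2, mul_comm]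

lemma lio_abs {lam : ℕ → ℝ} (h : Lio lam) (n : ℕ) : |lam n| ≤ 1 := by
  rcases h.pm n with h1 | h1 <;> rw [h1] <;> norm_num

/-- the inequality of Bessel below the logarithm, windows -/
theorem bsrw_of (hI : T_BLI) (hR : T_UBR) (hU : W_BLU) (hD : W_BLL) : W_BSR := by
  obtain ⟨B, C₀, hB1, hC₀, hI⟩ := hI
  refine ⟨B + 2, 2 * C₀, by omega, by positivity, ?_⟩
  intro R P ε hε
  obtain ⟨s₀, CS, hI⟩ := hI R P (ε / 8) (by positivity)
  obtain ⟨m₁, Cb, hCb, hR⟩ := hR P
  obtain ⟨t, ht⟩ := pow_unbounded_of_one_lt (8 * (|CS| + 1) / ε) (one_lt_two (α := ℝ))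
  refine ⟨s₀ + m₁ + t + 3, ?_⟩
  intro s hs
  set T : ℝ := 17 + 24 * Cb * 17 / ε + 8 * (C₀ * (1 + (R : ℝ)) ^ 2) / ε + 1 with hT
  have hc1 : 0 ≤ 24 * Cb * 17 / ε := by positivity
  have hc2 : 0 ≤ 8 * (C₀ * (1 + (R : ℝ)) ^ 2) / ε := by positivity
  have hT1 : 1 ≤ T := by linarith
  refine ⟨T ^ 2, ?_⟩
  intro X K lam e m hX hlio he hBase hs0 hm hmX
  have hlam : ∀ n, |lam n| ≤ 1 := Pool.Agent.H3.HB.lio_abs hlio
  obtain ⟨b, β, hb, hBase⟩ := hBase
  set L : ℝ := X.L with hLd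
  have hLT : T ^ 2 ≤ L := hX
  have hL1 : 1 ≤ L := by nlinarith
  have hsq : T ≤ Real.sqrt L := Real.le_sqrt_of_sq_le hLT
  have hsqL : Real.sqrt L * Real.sqrt L = L := Real.mul_self_sqrt (by linarith)
  have hsq0 : 0 < Real.sqrt L := by linarith
  rcases Nat.eq_zero_or_pos K with hK | hK
  · subst hK
    simp only [range_zero, sum_empty]
    positivity
  -- the levels
  have hm0 : s₀ + m₁ + t + 3 ≤ m 0 ∧ B * s ≤ m 0 := by
    have h1 : B * s + 2 * s ≤ m 0 := by linarith [hs0]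
    refine ⟨by omega, by omega⟩
  have hm' : ∀ i, i + 1 < K → B * m i ≤ m (i + 1) := by
    intro i hi
    refine le_trans ?_ (hm i hi)
    exact Nat.mul_le_mul_right _ (by omega)
  have hgrow : ∀ j < K, j + (s₀ + m₁ + t + 3) ≤ m j := by
    intro j
    induction j with
    | zero => intro _; omega
    | succ j ih =>
      intro hj
      have h2 := ih (by omega)
      have h3 : (B + 2) * m j ≤ m (j + 1) := hm j hj
      have h4 : 2 * m j ≤ (B + 2) * m j := Nat.mul_le_mul_right _ (by omega)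
      omega
  obtain ⟨M, hMd⟩ : ∃ M : ℕ, M = (range K).sup m := ⟨_, rfl⟩
  have hmM : ∀ j < K, m j ≤ M := by
    intro j hj
    rw [hMd]
    exact Finset.le_sup (f := m) (mem_range.2 hj)
  have hML : (4 : ℝ) ^ M ≤ L := by
    obtain ⟨j, hj, hj2⟩ := Finset.exists_mem_eq_sup (range K) ⟨0, mem_range.2 hK⟩ m
    rw [hMd, hj2]
    exact hmX j (mem_range.1 hj)
  have hKM : K ≤ M := by
    have h2 := hgrow (K - 1) (by omega)
    have h3 := hmM (K - 1) (by omega)
    omega
  have hsM : s + 3 ≤ 3 * M := by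
    have h1 := hmM 0 hK
    have h2 : 2 * s ≤ m 0 := le_trans (Nat.mul_le_mul_right _ (by omega)) hs0
    omega
  set N : ℕ := primorial (2 ^ (M / 200)) * 2 ^ (3 * M) with hN
  have hNpos : 0 < N := by
    rw [hN]
    have := primorial_pos (2 ^ (M / 200))
    positivity
  have hNr : (0 : ℝ) < N := by exact_mod_cast hNpos
  have hdvd : ∀ j < K, primorial (2 ^ (m j / 200)) ∣ N := by
    intro j hj
    refine dvd_trans (primorial_dvd_primorial ?_) (Dvd.intro _ (by rw [hN]))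
    exact Nat.pow_le_pow_right (by norm_num) (Nat.div_le_div_right (hmM j hj))
  have hdvd2 : ∀ j < K, 2 ^ m j ∣ N := by
    intro j hj
    rw [hN]
    exact Dvd.dvd.mul_left (pow_dvd_pow 2 (by have := hmM j hj; omega)) _
  have hdvd3 : 2 ^ s ∣ N := by
    rw [hN]
    exact Dvd.dvd.mul_left (pow_dvd_pow 2 (by omega)) _
  have hlogN : Real.log N ≤ 2 * 2 ^ (M / 200) + 3 * M := by
    have h1 : (N : ℝ) = (primorial (2 ^ (M / 200)) : ℝ) * 2 ^ (3 * M) := by
      rw [hN]
      push_cast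
      ring
    have hp : (0 : ℝ) < (primorial (2 ^ (M / 200)) : ℝ) := by
      exact_mod_cast primorial_pos _
    rw [h1, Real.log_mul hp.ne' (by positivity), Real.log_pow]
    have h2 : Real.log (primorial (2 ^ (M / 200)) : ℝ) ≤ 2 * 2 ^ (M / 200) := by
      have h3 : (primorial (2 ^ (M / 200)) : ℝ) ≤ 4 ^ (2 ^ (M / 200)) := by
        exact_mod_cast primorial_le_four_pow _
      refine (Real.log_le_log hp h3).trans ?_
      rw [Real.log_pow]
      have h4 : Real.log 4 ≤ 2 := by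
        have h5 : Real.log 4 = 2 * Real.log 2 := by
          rw [show (4 : ℝ) = 2 ^ 2 by norm_num, Real.log_pow]
          norm_num
        have := Real.log_two_lt_d9
        rw [h5]
        linarith
      push_cast
      have h6 : (0 : ℝ) < 2 ^ (M / 200) := by positivity
      nlinarith
    have h7 : ((3 * M : ℕ) : ℝ) * Real.log 2 ≤ 3 * M := by
      have := Real.log_two_lt_d9
      have h8 : (0 : ℝ) ≤ M := Nat.cast_nonneg M
      push_cast
      nlinarith
    linarith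
  have hsize := size_facts (M := M) (l := 0) le_rfl hML
  have hM0 : (0 : ℝ) ≤ M := Nat.cast_nonneg M
  have hlogN0 : 0 ≤ Real.log N := Real.log_natCast_nonneg N
  have hKlog : ((M : ℝ) + 1) * (1 + Real.log N) ≤ 17 * Real.sqrt L := by
    have h1 : (17 + 0) * Real.sqrt L = 17 * Real.sqrt L := by ring
    rw [h1] at hsize
    refine le_trans ?_ hsize
    exact mul_le_mul_of_nonneg_left (by linarith) (by positivity)
  -- the last error
  have hlast : CS * ((2 ^ s + ∑ j ∈ range K, (2 : ℝ) ^ m j) / (N : ℝ)) ≤ ε / 8 := by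
    have h3 : 2 ^ s + ∑ j ∈ range K, (2 : ℝ) ^ m j ≤ 2 ^ M * 2 ^ M := by
      have hsM' : (2 : ℝ) ^ s ≤ 2 ^ M := by
        apply pow_le_pow_right₀ (by norm_num)
        have h1 := hmM 0 hK
        have h2 : 2 * s ≤ m 0 := le_trans (Nat.mul_le_mul_right _ (by omega)) hs0
        omega
      calc 2 ^ s + ∑ j ∈ range K, (2 : ℝ) ^ m j ≤ 2 ^ M + ∑ _j ∈ range K, (2 : ℝ) ^ M := by
            apply add_le_add hsM'
            refine sum_le_sum fun j hj => ?_
            exact pow_le_pow_right₀ (by norm_num) (hmM j (mem_range.1 hj))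
        _ = (1 + K) * 2 ^ M := by rw [sum_const, nsmul_eq_mul, card_range]; ring
        _ ≤ 2 ^ M * 2 ^ M := by
            gcongr
            have h4 := Nat.lt_two_pow_self (n := M)
            have h5 : 1 + K ≤ 2 ^ M := by omega
            exact_mod_cast h5
    have h4 : (2 : ℝ) ^ (3 * M) ≤ N := by
      have h5 : 1 * 2 ^ (3 * M) ≤ N := by
        rw [hN]
        exact Nat.mul_le_mul_right _ (primorial_pos (2 ^ (M / 200)))
      rw [one_mul] at h5
      exact_mod_cast h5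
    have h6 : (2 ^ s + ∑ j ∈ range K, (2 : ℝ) ^ m j) / (N : ℝ) ≤ 1 / 2 ^ M := by
      rw [div_le_div_iff₀ hNr (by positivity)]
      calc (2 ^ s + ∑ j ∈ range K, (2 : ℝ) ^ m j) * 2 ^ M ≤ (2 ^ M * 2 ^ M) * 2 ^ M := by gcongr
        _ = 2 ^ (3 * M) := by
            rw [← pow_add, ← pow_add]
            congr 1
            ring
        _ ≤ 1 * N := by linarith
    have h7 : 0 ≤ (2 ^ s + ∑ j ∈ range K, (2 : ℝ) ^ m j) / (N : ℝ) := by positivity
    have h8 : (2 : ℝ) ^ t ≤ 2 ^ M := by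
      apply pow_le_pow_right₀ (by norm_num)
      have h1 := hmM 0 hK
      omega
    have h9 : 8 * (|CS| + 1) / ε ≤ 2 ^ M := by linarith
    rw [div_le_iff₀ hε] at h9
    calc CS * ((2 ^ s + ∑ j ∈ range K, (2 : ℝ) ^ m j) / (N : ℝ))
        ≤ (|CS| + 1) * ((2 ^ s + ∑ j ∈ range K, (2 : ℝ) ^ m j) / (N : ℝ)) := by
          apply mul_le_mul_of_nonneg_right _ h7
          linarith [le_abs_self CS]
      _ ≤ (|CS| + 1) * (1 / 2 ^ M) := by
          apply mul_le_mul_of_nonneg_left h6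
          positivity
      _ ≤ ε / 8 := by
          rw [mul_one_div, div_le_iff₀ (by positivity)]
          linarith
  -- each block
  have hblock : ∀ i ∈ Icc (max 1 (X.lo / N)) (X.hi / N - 1), 1 / (i : ℝ) *
      (∑ j ∈ range K, (∑ k ∈ range N, UBr lam P (m j) (i * N + k)) / (N : ℝ)) ≤
      C₀ * (1 / (i : ℝ) * ((∑ k ∈ range N, er lam R s b β (i * N + k)) / (N : ℝ))) +
        ε / 4 * (1 / (i : ℝ)) := by
    intro i _
    have h3 := hI s (by omega) N K i lam m b β hlam hb hNpos hK hm0.2 hm' hdvd hdvd2 hdvd3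
    have hi0 : (0 : ℝ) ≤ 1 / (i : ℝ) := by positivity
    calc 1 / (i : ℝ) * (∑ j ∈ range K, (∑ k ∈ range N, UBr lam P (m j) (i * N + k)) / (N : ℝ))
        ≤ 1 / (i : ℝ) * (C₀ * ((∑ k ∈ range N, er lam R s b β (i * N + k)) / (N : ℝ)) +
          ε / 4) := by
          apply mul_le_mul_of_nonneg_left _ hi0
          linarith
      _ = _ := by ring
  -- the base
  have hbase : ∑ i ∈ Icc (max 1 (X.lo / N)) (X.hi / N - 1), 1 / (i : ℝ) *
      ((∑ k ∈ range N, er lam R s b β (i * N + k)) / (N : ℝ)) ≤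
      2 * (e * L) + (1 + (R : ℝ)) ^ 2 := by
    have h1 := hD X N (fun n => er lam R s b β n) hNpos (er_nonneg lam R s b β)
    have h2 : wlg X (fun n => er lam R s b β n) ≤ e * L := by
      refine le_trans (le_of_eq ?_) hBase
      rfl
    have hnn : ∀ i : ℕ, 0 ≤ 1 / (i : ℝ) *
        ((∑ k ∈ range N, er lam R s b β (i * N + k)) / (N : ℝ)) := by
      intro i
      have : 0 ≤ ∑ k ∈ range N, er lam R s b β (i * N + k) :=
        sum_nonneg fun k _ => er_nonneg lam R s b β _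
      positivity
    have hsub : Icc (max 1 (X.lo / N)) (X.hi / N - 1) ⊆
        insert (max 1 (X.lo / N)) (Icc (X.lo / N + 1) (X.hi / N - 1)) := by
      intro i hi
      rw [mem_insert, mem_Icc]
      rw [mem_Icc] at hi
      by_cases h : i = max 1 (X.lo / N)
      · left; exact h
      · right
        constructor
        · have := hi.1
          omega
        · exact hi.2
    refine (sum_le_sum_of_subset_of_nonneg hsub fun i _ _ => hnn i).trans ?_
    have hone : 1 / ((max 1 (X.lo / N) : ℕ) : ℝ) *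
        ((∑ k ∈ range N, er lam R s b β (max 1 (X.lo / N) * N + k)) / (N : ℝ)) ≤
        (1 + (R : ℝ)) ^ 2 := by
      have ha : (1 : ℝ) ≤ ((max 1 (X.lo / N) : ℕ) : ℝ) := by
        exact_mod_cast le_max_left _ _
      have h3 : 1 / ((max 1 (X.lo / N) : ℕ) : ℝ) ≤ 1 := by
        rw [div_le_one (by linarith)]
        exact ha
      have h4 : (∑ k ∈ range N, er lam R s b β (max 1 (X.lo / N) * N + k)) / (N : ℝ) ≤
          (1 + (R : ℝ)) ^ 2 := by
        rw [div_le_iff₀ hNr]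
        calc ∑ k ∈ range N, er lam R s b β (max 1 (X.lo / N) * N + k)
            ≤ ∑ _k ∈ range N, (1 + (R : ℝ)) ^ 2 :=
              sum_le_sum fun k _ => er_le hlam R s hb β _
          _ = (1 + (R : ℝ)) ^ 2 * N := by
              rw [sum_const, card_range, nsmul_eq_mul]; ring
      have h5 : 0 ≤ (∑ k ∈ range N, er lam R s b β (max 1 (X.lo / N) * N + k)) / (N : ℝ) := by
        have : 0 ≤ ∑ k ∈ range N, er lam R s b β (max 1 (X.lo / N) * N + k) :=
          sum_nonneg fun k _ => er_nonneg lam R s b β _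
        positivity
      calc _ ≤ 1 * ((∑ k ∈ range N, er lam R s b β (max 1 (X.lo / N) * N + k)) / (N : ℝ)) :=
            mul_le_mul_of_nonneg_right h3 h5
        _ ≤ _ := by rw [one_mul]; exact h4
    have h6 : ∑ i ∈ insert (max 1 (X.lo / N)) (Icc (X.lo / N + 1) (X.hi / N - 1)),
        1 / (i : ℝ) * ((∑ k ∈ range N, er lam R s b β (i * N + k)) / (N : ℝ)) ≤
        1 / ((max 1 (X.lo / N) : ℕ) : ℝ) *
        ((∑ k ∈ range N, er lam R s b β (max 1 (X.lo / N) * N + k)) / (N : ℝ)) +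
        ∑ i ∈ Icc (X.lo / N + 1) (X.hi / N - 1),
        1 / (i : ℝ) * ((∑ k ∈ range N, er lam R s b β (i * N + k)) / (N : ℝ)) := by
      by_cases h : max 1 (X.lo / N) ∈ Icc (X.lo / N + 1) (X.hi / N - 1)
      · rw [insert_eq_of_mem h]
        have := hnn (max 1 (X.lo / N))
        linarith
      · rw [sum_insert h]
    linarith
  have hharm := harm N X hNpos
  rw [← hLd] at hharm
  calc ∑ j ∈ range K, wlg X (fun n => UBr lam P (m j) n)
      ≤ ∑ j ∈ range K, (3 * Cb * (1 + Real.log N) +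
        ∑ i ∈ Icc (max 1 (X.lo / N)) (X.hi / N - 1), 1 / (i : ℝ) *
          ((∑ k ∈ range N, UBr lam P (m j) (i * N + k)) / (N : ℝ))) := by
        refine sum_le_sum fun j hj => ?_
        have hmj : m₁ ≤ m j := by
          have := hgrow j (mem_range.1 hj)
          omega
        exact hU X N (fun n => UBr lam P (m j) n) Cb hNpos hL1 hCb.le fun n =>
          ⟨(hR lam (m j) n hmj hlam).1, (hR lam (m j) n hmj hlam).2.1⟩
    _ = K * (3 * Cb * (1 + Real.log N)) +
        ∑ i ∈ Icc (max 1 (X.lo / N)) (X.hi / N - 1), 1 / (i : ℝ) *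
          (∑ j ∈ range K, (∑ k ∈ range N, UBr lam P (m j) (i * N + k)) / (N : ℝ)) := by
        rw [sum_add_distrib, sum_const, card_range, nsmul_eq_mul, sum_comm]
        congr 1
        refine sum_congr rfl fun i _ => ?_
        rw [mul_sum]
    _ ≤ ε / 8 * L + ∑ i ∈ Icc (max 1 (X.lo / N)) (X.hi / N - 1),
          (C₀ * (1 / (i : ℝ) * ((∑ k ∈ range N, er lam R s b β (i * N + k)) / (N : ℝ))) +
          ε / 4 * (1 / (i : ℝ))) := by
        apply add_le_add _ (sum_le_sum hblock)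
        have h3 : (K : ℝ) ≤ (M : ℝ) + 1 := by exact_mod_cast (by omega : K ≤ M + 1)
        calc (K : ℝ) * (3 * Cb * (1 + Real.log N))
            ≤ ((M : ℝ) + 1) * (3 * Cb * (1 + Real.log N)) := by gcongr
          _ = 3 * Cb * (((M : ℝ) + 1) * (1 + Real.log N)) := by ring
          _ ≤ 3 * Cb * (17 * Real.sqrt L) := by gcongr
          _ = ε / 8 * (24 * Cb * 17 / ε) * Real.sqrt L := by
              field_simp
              ring
          _ ≤ ε / 8 * Real.sqrt L * Real.sqrt L := by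
              gcongr
              linarith
          _ = ε / 8 * L := by rw [mul_assoc, hsqL]
    _ ≤ ε / 8 * L + (C₀ * (2 * (e * L) + (1 + (R : ℝ)) ^ 2) + ε / 4 * (2 + L)) := by
        rw [sum_add_distrib, ← mul_sum, ← mul_sum]
        gcongr
    _ ≤ (2 * C₀ * e + ε) * L := by
        have h3 : C₀ * (1 + (R : ℝ)) ^ 2 ≤ ε / 8 * L := by
          have h4 : 8 * (C₀ * (1 + (R : ℝ)) ^ 2) / ε ≤ L := by
            have h5 : T ≤ T ^ 2 := by nlinarith
            linarith
          rw [div_le_iff₀ hε] at h4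
          linarith
        nlinarith

end Pool.Agent.H3.HB
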