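import Pool.Agent.H3.HB.Win
import Pool.Agent.H3.HB.Red

/-!
# Theorem (H0) (MP_c59857_nt), part (e): one block of integers
-/

set_option autoImplicit false

namespace Pool.Agent.H3.HB

open Finset Pool.Agent.H18.MR Pool.Agent.H93.DE Pool.Agent.H6.N4D Pool.Agent.H93
  Pool.Agent.H93.GS Pool.Agent.H93.ES Pool.Agent.H22.GS Pool.Agent.H6.GS2 Pool.Agent.H6.G9
  Pool.Agent.H6.G0 Pool.Agent.H56.HB Pool.Agent.H93.HB Pool.Agent.H70.G0

/-- sums over the cyclic group -/
lemma sum_val (N : ℕ) [NeZero N] (g : ℕ → ℝ) : ∑ n : ZMod N, g n.val = ∑ k ∈ range N, g k := by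
  obtain ⟨M, rfl⟩ : ∃ M, N = M + 1 := ⟨N - 1, by have := NeZero.pos N; omega⟩
  exact Fin.sum_univ_eq_sum_range g (M + 1)

/-- windows inside the block and windows which are cut -/
lemma sum_good (N W : ℕ) (hW : 1 ≤ W) (hWN : W ≤ N) (U : ℕ → ℝ) (c : ℝ) :
    ∑ v ∈ range N, (if 1 ≤ v ∧ v + W ≤ N then U (v - 1) else c) =
      ∑ k ∈ range (N - W), U k + W * c := by
  obtain ⟨A, rfl⟩ : ∃ A, N = A + W := ⟨N - W, by omega⟩
  obtain ⟨W', rfl⟩ : ∃ W', W = W' + 1 := ⟨W - 1, by omega⟩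
  have e : A + (W' + 1) = (A + 1) + W' := by ring
  rw [e, sum_range_add, sum_range_succ']
  have h1 : ∀ k ∈ range A, (if 1 ≤ k + 1 ∧ k + 1 + (W' + 1) ≤ A + 1 + W' then U (k + 1 - 1)
      else c) = U k := by
    intro k hk
    rw [mem_range] at hk
    rw [if_pos ⟨by omega, by omega⟩]
    rfl
  have h2 : ∀ t ∈ range W', (if 1 ≤ A + 1 + t ∧ A + 1 + t + (W' + 1) ≤ A + 1 + W' then
      U (A + 1 + t - 1) else c) = c := by
    intro t _
    rw [if_neg]
    omega
  rw [sum_congr rfl h1, sum_congr rfl h2, sum_const, card_range, nsmul_eq_mul]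
  rw [if_neg (by omega)]
  have h3 : A + 1 + W' - (W' + 1) = A := by omega
  rw [h3]
  push_cast
  ring

/-- exponentially small errors of the levels -/
lemma small_sum {K : ℕ} {m : ℕ → ℕ} (hm0 : 1 ≤ m 0) (hm : ∀ j, j + 1 < K → 4000 * m j ≤ m (j + 1)) :
    ∑ j ∈ range K, ((1 : ℝ) / 2) ^ (m j / 2000) ≤ 2 * (1 / 2) ^ (m 0 / 2000) := by
  have h1 : ∀ j < K, 1 ≤ m j ∧ m 0 / 2000 + j ≤ m j / 2000 := by
    intro j
    induction j with
    | zero => intro _; exact ⟨hm0, by omega⟩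
    | succ j ih =>
      intro hj
      obtain ⟨h2, h3⟩ := ih (by omega)
      have h4 := hm j hj
      refine ⟨by omega, ?_⟩
      have h5 : m j / 2000 + 1 ≤ m (j + 1) / 2000 := by
        rw [Nat.le_div_iff_mul_le (by norm_num)]
        have h6 := Nat.div_mul_le_self (m j) 2000
        linarith
      omega
  calc ∑ j ∈ range K, ((1 : ℝ) / 2) ^ (m j / 2000)
      ≤ ∑ j ∈ range K, ((1 : ℝ) / 2) ^ (m 0 / 2000) * (1 / 2) ^ j := by
        refine sum_le_sum fun j hj => ?_
        rw [← pow_add]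
        exact pow_le_pow_of_le_one (by norm_num) (by norm_num) (h1 j (mem_range.1 hj)).2
    _ = (1 / 2) ^ (m 0 / 2000) * ∑ j ∈ range K, ((1 : ℝ) / 2) ^ j := by rw [mul_sum]
    _ ≤ (1 / 2) ^ (m 0 / 2000) * 2 := by
        apply mul_le_mul_of_nonneg_left _ (by positivity)
        have h2 : ∑ j ∈ range K, ((1 : ℝ) / 2) ^ j ≤ ∑' j : ℕ, ((1 : ℝ) / 2) ^ j :=
          (summable_geometric_two).sum_le_tsum _ fun j _ => by positivity
        exact h2.trans (le_of_eq tsum_geometric_two)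
    _ = _ := by ring

lemma val_add {N : ℕ} [NeZero N] (n : ZMod N) (t : ℕ) (h : n.val + t < N) :
    (n + (t : ZMod N)).val = n.val + t := by
  rw [ZMod.val_add, ZMod.val_natCast, Nat.add_mod_mod, Nat.mod_eq_of_lt h]

theorem bli_of (hB : T_BLO) (hU : T_UBR) (hN : T_NRS) : T_BLI := by
  classical
  obtain ⟨B, C₀, hB1, hC₀, hB⟩ := hB
  refine ⟨B + 4000, C₀, by omega, hC₀, ?_⟩
  intro R P ε hε
  obtain ⟨V, C, m₁, hV, hC, hW⟩ := win hN P
  obtain ⟨m₂, Cb, hCb, hU⟩ := hU P
  obtain ⟨s₁, hB⟩ := hB R P V (ε / 2) hV (by positivity)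
  obtain ⟨t, ht⟩ := pow_unbounded_of_one_lt (4 * (C + 1) / ε) (one_lt_two (α := ℝ))
  refine ⟨s₁ + m₁ + m₂ + t + 1, C₀ * (1 + (R : ℝ)) ^ 2 + Cb, ?_⟩
  intro s hs N K i lam m b β hlam hb hN1 hK hs0 hm hd1 hd2 hd3
  have : NeZero N := ⟨by omega⟩
  have hNr : (0 : ℝ) < N := by exact_mod_cast hN1
  -- the levels
  have hm0 : s₁ + m₁ + m₂ + t + 1 ≤ m 0 ∧ B * s ≤ m 0 ∧ 4000 * s ≤ m 0 := by
    have h1 : B * s + 4000 * s ≤ m 0 := by linarith [hs0]
    refine ⟨by omega, by omega, by omega⟩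
  have hmB : ∀ j, j + 1 < K → B * m j ≤ m (j + 1) := fun j hj =>
    le_trans (Nat.mul_le_mul_right _ (by omega)) (hm j hj)
  have hm4 : ∀ j, j + 1 < K → 4000 * m j ≤ m (j + 1) := fun j hj =>
    le_trans (Nat.mul_le_mul_right _ (by omega)) (hm j hj)
  have hmj : ∀ j < K, s₁ + m₁ + m₂ + t + 1 ≤ m j := by
    intro j
    induction j with
    | zero => intro _; omega
    | succ j ih =>
      intro hj
      have h2 := ih (by omega)
      have h3 := hm4 j hj
      omega
  have hWN : ∀ j < K, 2 ^ m j ≤ N := fun j hj => Nat.le_of_dvd hN1 (hd2 j hj)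
  have hsN : 2 ^ s ≤ N := Nat.le_of_dvd hN1 hd3
  -- the function on the cyclic group
  set f : ZMod N → ℝ := fun x => lam (i * N + x.val) with hf
  have hfl : ∀ (n : ZMod N) (t : ℕ), 1 ≤ n.val → n.val + t < N →
      lt f n t = lam (i * N + (n.val - 1) + 1 + t) := by
    intro n t h1 h2
    show lam (i * N + (n + (t : ZMod N)).val) = _
    rw [val_add n t h2]
    congr 1
    omega
  -- the families
  have hfam : ∀ (j : ℕ) (n : ZMod N), ∃ (φ : ℕ → ℕ → ℝ) (u : ℕ → ℕ → ℂ), j < K →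
      FC (m j) P V φ u ∧
      (if 1 ≤ n.val ∧ n.val + 2 ^ m j ≤ N then UBr lam P (m j) (i * N + (n.val - 1)) else 0) ≤
        fw (lt f n) (m j) n.val P φ u + (C + 1) * (1 / 2) ^ (m j / 2000) := by
    intro j n
    by_cases hj : j < K
    swap
    · exact ⟨fun _ _ => 0, fun _ _ => 0, fun h => absurd h hj⟩
    have hmm := hmj j hj
    by_cases hg : 1 ≤ n.val ∧ n.val + 2 ^ m j ≤ N
    · obtain ⟨_, _, _, h4, _⟩ := hU lam (m j) (i * N + (n.val - 1)) (by omega) hlam
      obtain ⟨φ, u, hA, h5⟩ := h4 ((1 / 2) ^ (m j / 2000)) (by positivity)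
      obtain ⟨h6, h7⟩ := hW lam (m j) (i * N + (n.val - 1)) φ u (by omega) hlam hA
      refine ⟨φ, ct P (m j) (i * N + (n.val - 1)) φ u, fun _ => ⟨h6, ?_⟩⟩
      rw [if_pos hg]
      have h8 := h7 (lt f n) n.val (fun t ht => hfl n t hg.1 (by omega)) (by
        intro q hq t
        have hqN : q ∣ N := by
          have h9 : q ∣ primorial (2 ^ (m j / 200)) := by
            unfold EB.QQ at hq
            rw [mem_filter, mem_Ioc] at hq
            exact (Nat.Prime.dvd_primorial_iff hq.2).2 hq.1.2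
          exact h9.trans (hd1 j hj)
        have h10 : i * N + (n.val - 1) + 1 + t = i * N + (n.val + t) := by omega
        rw [h10]
        exact (Nat.dvd_add_right (Dvd.dvd.mul_left hqN i)).symm)
      have h9 : 0 ≤ ((1 : ℝ) / 2) ^ (m j / 2000) := by positivity
      linarith
    · obtain ⟨_, _, _, h4, _⟩ := hU lam (m j) (i * N) (by omega) hlam
      obtain ⟨φ, u, hA, _⟩ := h4 1 one_pos
      obtain ⟨h6, _⟩ := hW lam (m j) (i * N) φ u (by omega) hlam hA
      refine ⟨φ, fun _ _ => 0, fun _ => ⟨⟨⟨fun j q => ?_, h6.nf.nc, ⟨fun _ => 0, fun q _ => ?_⟩⟩,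
        fun q _ i _ j _ h => absurd rfl h, fun q _ => Or.inl fun _ _ => rfl⟩, ?_⟩⟩
      · rw [norm_zero]
        exact Nat.cast_nonneg _
      · right
        have h7 := ms_nonneg (m j) (fe P φ (fun _ _ => 0) q)
        simp only [norm_zero, sum_const_zero]
        positivity
      · rw [if_neg hg]
        have h7 : ∀ q, fe P φ (fun _ _ => 0) q = fun _ => 0 := fun q => by
          funext t
          exact fe_zero (fun _ => rfl) t
        have h8 : fw (lt f n) (m j) n.val P φ (fun _ _ => 0) = 0 := by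
          unfold fw
          refine sum_eq_zero fun q _ => ?_
          rw [h7 q]
          unfold cx wm ms
          simp
        rw [h8]
        positivity
  choose φ u hφ using hfam
  -- the base
  set b' : ZMod N → ℕ → ℂ := fun n r => b (i * N + (n.val - 1)) r *
    ee (β (i * N + (n.val - 1)) r * ((i * N + (n.val - 1) + 1 : ℕ) : ℝ)) with hb'
  set β' : ZMod N → ℕ → ℝ := fun n r => β (i * N + (n.val - 1)) r with hβ'
  have hb1 : ∀ n r, ‖b' n r‖ ≤ 1 := by
    intro n r
    rw [hb']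
    simp only
    rw [norm_mul, norm_ee, mul_one]
    exact hb _ r
  have hlf : ∀ x : ZMod N, |f x| ≤ 1 := fun x => hlam _
  have hmain := hB s (by omega) N K m f φ u b' β' hlf hb1 hd3 hm0.2.1 hmB
    (fun j hj => ⟨hd1 j hj, hd2 j hj⟩) (fun j hj n => (hφ j n hj).1)
  -- the base, comparison
  have hbase : be R s f b' β' ≤
      (∑ k ∈ range N, er lam R s b β (i * N + k)) / (N : ℝ) +
        (1 + (R : ℝ)) ^ 2 * (2 ^ s / (N : ℝ)) := by
    have h1 : ∀ n : ZMod N, (∑ t ∈ range (2 ^ s),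
        ‖(lt f n t : ℂ) - ∑ r ∈ range R, b' n r * ee (β' n r * t)‖ ^ 2) / 2 ^ s ≤
        (fun v => if 1 ≤ v ∧ v + 2 ^ s ≤ N then er lam R s b β (i * N + (v - 1)) else
          (1 + (R : ℝ)) ^ 2) n.val := by
      intro n
      simp only
      by_cases hg : 1 ≤ n.val ∧ n.val + 2 ^ s ≤ N
      · rw [if_pos hg]
        unfold er
        rw [sum_Ioc_shift]
        refine le_of_eq ?_
        push_cast
        congr 1
        refine sum_congr rfl fun t ht => ?_
        rw [mem_range] at ht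
        rw [hfl n t hg.1 (by omega)]
        congr 3
        refine sum_congr rfl fun r _ => ?_
        rw [hb', hβ']
        simp only
        rw [mul_assoc, ← ee_add]
        congr 2
        push_cast
        ring
      · rw [if_neg hg, div_le_iff₀ (by positivity)]
        have h2 : ∀ t ∈ range (2 ^ s),
            ‖(lt f n t : ℂ) - ∑ r ∈ range R, b' n r * ee (β' n r * t)‖ ^ 2 ≤
              (1 + (R : ℝ)) ^ 2 := by
          intro t _
          apply pow_le_pow_left₀ (norm_nonneg _)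
          refine (norm_sub_le _ _).trans ?_
          apply add_le_add
          · rw [Complex.norm_real]
            exact hlf _
          · refine (norm_sum_le _ _).trans ?_
            calc ∑ r ∈ range R, ‖b' n r * ee (β' n r * t)‖ ≤ ∑ _r ∈ range R, (1 : ℝ) := by
                  refine sum_le_sum fun r _ => ?_
                  rw [norm_mul, norm_ee, mul_one]
                  exact hb1 n r
              _ = R := by simp
        refine (sum_le_sum h2).trans (le_of_eq ?_)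
        rw [sum_const, card_range, nsmul_eq_mul]
        push_cast
        ring
    unfold be avZ
    rw [div_le_iff₀ hNr]
    refine (sum_le_sum fun n _ => h1 n).trans ?_
    rw [sum_val N (fun v => if 1 ≤ v ∧ v + 2 ^ s ≤ N then er lam R s b β (i * N + (v - 1)) else
          (1 + (R : ℝ)) ^ 2),
      sum_good N (2 ^ s) Nat.one_le_two_pow hsN (fun k => er lam R s b β (i * N + k))]
    have h3 : ∑ k ∈ range (N - 2 ^ s), er lam R s b β (i * N + k) ≤
        ∑ k ∈ range N, er lam R s b β (i * N + k) :=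
      sum_le_sum_of_subset_of_nonneg (range_subset_range.2 (Nat.sub_le _ _))
        fun k _ _ => er_nonneg _ _ _ _ _ _
    have h4 : ((∑ k ∈ range N, er lam R s b β (i * N + k)) / (N : ℝ) +
        (1 + (R : ℝ)) ^ 2 * (2 ^ s / (N : ℝ))) * N =
        ∑ k ∈ range N, er lam R s b β (i * N + k) + 2 ^ s * (1 + (R : ℝ)) ^ 2 := by
      field_simp
    rw [h4]
    push_cast
    linarith
  -- the levels, comparison
  have hlev : ∀ j ∈ range K, (∑ k ∈ range N, UBr lam P (m j) (i * N + k)) / (N : ℝ) ≤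
      avZ (fun n => fw (lt f n) (m j) n.val P (φ j n) (u j n)) +
        (C + 1) * (1 / 2) ^ (m j / 2000) + Cb * (2 ^ m j / (N : ℝ)) := by
    intro j hj
    rw [mem_range] at hj
    have hmm := hmj j hj
    have h1 : ∑ k ∈ range N, UBr lam P (m j) (i * N + k) ≤
        ∑ k ∈ range (N - 2 ^ m j), UBr lam P (m j) (i * N + k) + (2 ^ m j : ℕ) * Cb := by
      have h2 := hWN j hj
      have h3 : N = (N - 2 ^ m j) + 2 ^ m j := by omega
      have h4 : ∑ k ∈ range N, UBr lam P (m j) (i * N + k) =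
          ∑ k ∈ range ((N - 2 ^ m j) + 2 ^ m j), UBr lam P (m j) (i * N + k) := by
        rw [← h3]
      rw [h4, sum_range_add]
      apply add_le_add le_rfl
      calc ∑ x ∈ range (2 ^ m j), UBr lam P (m j) (i * N + (N - 2 ^ m j + x))
          ≤ ∑ _x ∈ range (2 ^ m j), Cb := by
            refine sum_le_sum fun x _ => ?_
            exact (hU lam (m j) _ (by omega) hlam).2.1
        _ = (2 ^ m j : ℕ) * Cb := by rw [sum_const, card_range, nsmul_eq_mul]
    have h5 := sum_good N (2 ^ m j) Nat.one_le_two_pow (hWN j hj)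
      (fun k => UBr lam P (m j) (i * N + k)) 0
    rw [mul_zero, add_zero] at h5
    have h6 : ∑ k ∈ range (N - 2 ^ m j), UBr lam P (m j) (i * N + k) ≤
        ∑ n : ZMod N, (fw (lt f n) (m j) n.val P (φ j n) (u j n) +
          (C + 1) * (1 / 2) ^ (m j / 2000)) := by
      rw [← h5, ← sum_val N (fun v => if 1 ≤ v ∧ v + 2 ^ m j ≤ N then
        UBr lam P (m j) (i * N + (v - 1)) else 0)]
      exact sum_le_sum fun n _ => (hφ j n hj).2
    rw [sum_add_distrib, sum_const, card_univ, ZMod.card, nsmul_eq_mul] at h6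
    unfold avZ
    rw [div_le_iff₀ hNr]
    have h7 : ((∑ n : ZMod N, fw (lt f n) (m j) n.val P (φ j n) (u j n)) / (N : ℝ) +
        (C + 1) * (1 / 2) ^ (m j / 2000) + Cb * (2 ^ m j / (N : ℝ))) * N =
        ∑ n : ZMod N, fw (lt f n) (m j) n.val P (φ j n) (u j n) +
        N * ((C + 1) * (1 / 2) ^ (m j / 2000)) + 2 ^ m j * Cb := by
      field_simp
    rw [h7]
    push_cast at h1
    linarith
  -- the end
  have hsm := small_sum (K := K) (m := m) (by omega) hm4
  have hsm2 : (C + 1) * (2 * (1 / 2) ^ (m 0 / 2000)) ≤ ε / 2 := by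
    have h1 : t ≤ m 0 / 2000 := by omega
    have h2 : ((1 : ℝ) / 2) ^ (m 0 / 2000) ≤ (1 / 2) ^ t :=
      pow_le_pow_of_le_one (by norm_num) (by norm_num) h1
    have h3 : ((1 : ℝ) / 2) ^ t * 2 ^ t = 1 := by
      rw [← mul_pow]
      norm_num
    have h4 : 4 * (C + 1) < 2 ^ t * ε := by
      rwa [div_lt_iff₀ hε] at ht
    have h5 : (0 : ℝ) < (1 / 2) ^ t := by positivity
    have h6 : (C + 1) * (1 / 2) ^ (m 0 / 2000) ≤ (C + 1) * (1 / 2) ^ t :=
      mul_le_mul_of_nonneg_left h2 (by linarith)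
    have h7 : 4 * (C + 1) * (1 / 2) ^ t ≤ ε := by
      calc 4 * (C + 1) * (1 / 2) ^ t ≤ 2 ^ t * ε * (1 / 2) ^ t :=
            mul_le_mul_of_nonneg_right h4.le h5.le
        _ = ε * ((1 / 2) ^ t * 2 ^ t) := by ring
        _ = ε := by rw [h3, mul_one]
    linarith
  calc ∑ j ∈ range K, (∑ k ∈ range N, UBr lam P (m j) (i * N + k)) / (N : ℝ)
      ≤ ∑ j ∈ range K, (avZ (fun n => fw (lt f n) (m j) n.val P (φ j n) (u j n)) +
        (C + 1) * (1 / 2) ^ (m j / 2000) + Cb * (2 ^ m j / (N : ℝ))) := sum_le_sum hlev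
    _ = ∑ j ∈ range K, avZ (fun n => fw (lt f n) (m j) n.val P (φ j n) (u j n)) +
        (C + 1) * ∑ j ∈ range K, ((1 : ℝ) / 2) ^ (m j / 2000) +
        Cb * ((∑ j ∈ range K, (2 : ℝ) ^ m j) / (N : ℝ)) := by
        rw [sum_add_distrib, sum_add_distrib, mul_sum, sum_div, mul_sum]
    _ ≤ (C₀ * ((∑ k ∈ range N, er lam R s b β (i * N + k)) / (N : ℝ) +
        (1 + (R : ℝ)) ^ 2 * (2 ^ s / (N : ℝ))) + ε / 2) + ε / 2 +
        Cb * ((∑ j ∈ range K, (2 : ℝ) ^ m j) / (N : ℝ)) := by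
        have h1 := mul_le_mul_of_nonneg_left hbase hC₀.le
        have h2 := mul_le_mul_of_nonneg_left hsm (by linarith : 0 ≤ C + 1)
        linarith
    _ ≤ _ := by
        have h1 : 0 ≤ (2 : ℝ) ^ s / (N : ℝ) := by positivity
        have h2 : 0 ≤ (∑ j ∈ range K, (2 : ℝ) ^ m j) / (N : ℝ) := by positivity
        have h3 : 0 ≤ C₀ * (1 + (R : ℝ)) ^ 2 := by positivity
        rw [add_div]
        nlinarith [mul_nonneg h3 h2, mul_nonneg hCb.le h1]

end Pool.Agent.H3.HB
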