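import Pool.Agent.H3.GW.TargetsR
import Pool.Agent.H3.BES.SWT

/-!
# Theorem (H0) (MP_c59857_nt), part (e): one block of integers
-/

set_option autoImplicit false

namespace Pool.Agent.H3.HB

open Finset Pool.Agent.H6.N4D Pool.Agent.H93 Pool.Agent.H6.G0

/-- the mean square distance of the base model on the window `(n, n + 2 ^ s]` -/
noncomputable def er (lam : ℕ → ℝ) (R s : ℕ) (b : ℕ → ℕ → ℂ) (β : ℕ → ℕ → ℝ) (n : ℕ) : ℝ :=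
  (∑ m ∈ Ioc n (n + 2 ^ s), ‖(lam m : ℂ) - ∑ r ∈ range R, b n r * ee (β n r * m)‖ ^ 2) /
    ((2 ^ s : ℕ) : ℝ)

/-- BLI. The inequality of Bessel on one block of integers. -/
def T_BLI : Prop := ∃ (B : ℕ) (C₀ : ℝ), 1 ≤ B ∧ 0 < C₀ ∧ ∀ (R P : ℕ) (ε : ℝ), 0 < ε →
  ∃ (s₀ : ℕ) (CS : ℝ), ∀ s, s₀ ≤ s → ∀ (N K i : ℕ) (lam : ℕ → ℝ) (m : ℕ → ℕ)
    (b : ℕ → ℕ → ℂ) (β : ℕ → ℕ → ℝ), (∀ n, |lam n| ≤ 1) → (∀ n r, ‖b n r‖ ≤ 1) →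
    1 ≤ N → 1 ≤ K → B * s ≤ m 0 → (∀ j, j + 1 < K → B * m j ≤ m (j + 1)) →
    (∀ j < K, primorial (2 ^ (m j / 200)) ∣ N) → (∀ j < K, 2 ^ m j ∣ N) → 2 ^ s ∣ N →
    ∑ j ∈ range K, (∑ k ∈ range N, UBr lam P (m j) (i * N + k)) / (N : ℝ) ≤
      C₀ * ((∑ k ∈ range N, er lam R s b β (i * N + k)) / (N : ℝ)) + ε +
        CS * ((2 ^ s + ∑ j ∈ range K, (2 : ℝ) ^ m j) / (N : ℝ))

end Pool.Agent.H3.HB
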