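import Pool.Agent.H93.HB.Targets
import Pool.Agent.H70.G0.NFC
import Pool.Agent.H38.G9.BSU

/-!
# Theorem (H0) (MP_c59857_nt), part (e): one window, from the restricted families to the families
of the block theorem
-/

set_option autoImplicit false

namespace Pool.Agent.H3.HB

open Finset Pool.Agent.H18.MR Pool.Agent.H93.DE Pool.Agent.H6.N4D Pool.Agent.H93
  Pool.Agent.H93.GS Pool.Agent.H93.ES Pool.Agent.H22.GS Pool.Agent.H6.GS2 Pool.Agent.H6.G9
  Pool.Agent.H6.G0 Pool.Agent.H56.HB Pool.Agent.H93.HB Pool.Agent.H70.G0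

lemma QQ_bd {m q : ℕ} (hq : q ∈ EB.QQ m) : 1 ≤ q ∧ q ≤ 2 ^ m := by
  unfold EB.QQ at hq
  rw [mem_filter, mem_Ioc] at hq
  refine ⟨hq.2.one_lt.le, hq.1.2.trans (Nat.pow_le_pow_right (by norm_num) ?_)⟩
  exact Nat.div_le_self _ _

open Classical in
/-- the coefficients after the cut -/
noncomputable def ct (P m n : ℕ) (φ : ℕ → ℕ → ℝ) (u : ℕ → ℕ → ℂ) (j q : ℕ) : ℂ :=
  if ms m (fe P φ (fun j q => u j q * ee (φ j q * ((n + 1 : ℕ) : ℝ))) q) < (1 / 2) ^ (m / 1000)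
  then 0 else u j q * ee (φ j q * ((n + 1 : ℕ) : ℝ))

lemma ct_cut {P m n q : ℕ} {φ : ℕ → ℕ → ℝ} {u : ℕ → ℕ → ℂ}
    (h : ms m (fe P φ (fun j q => u j q * ee (φ j q * ((n + 1 : ℕ) : ℝ))) q) <
      (1 / 2) ^ (m / 1000)) (j : ℕ) : ct P m n φ u j q = 0 := by
  unfold ct
  rw [if_pos h]

lemma ct_keep {P m n q : ℕ} {φ : ℕ → ℕ → ℝ} {u : ℕ → ℕ → ℂ}
    (h : ¬ ms m (fe P φ (fun j q => u j q * ee (φ j q * ((n + 1 : ℕ) : ℝ))) q) <
      (1 / 2) ^ (m / 1000)) (j : ℕ) :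
    ct P m n φ u j q = u j q * ee (φ j q * ((n + 1 : ℕ) : ℝ)) := by
  unfold ct
  rw [if_neg h]

lemma fe_zero {P q : ℕ} {φ : ℕ → ℕ → ℝ} {u : ℕ → ℕ → ℂ} (h : ∀ j, u j q = 0) (t : ℕ) :
    fe P φ u q t = 0 := by
  unfold fe
  exact sum_eq_zero fun j _ => by rw [h j, zero_mul]

lemma fe_congr {P q : ℕ} {φ : ℕ → ℕ → ℝ} {u v : ℕ → ℕ → ℂ} (h : ∀ j, u j q = v j q) :
    fe P φ u q = fe P φ v q := by
  funext t
  unfold fe
  exact sum_congr rfl fun j _ => by rw [h j]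

lemma ms_nonneg (w : ℕ) (F : ℕ → ℂ) : 0 ≤ ms w F := by
  unfold ms
  positivity

/-- the functional of a prime -/
lemma cx_eq {lam : ℕ → ℝ} {P m n q r₀ : ℕ} {φ : ℕ → ℕ → ℝ} {u : ℕ → ℕ → ℂ} {f : ℕ → ℝ}
    (hf : ∀ t < 2 ^ m, f t = lam (n + 1 + t)) (hq : ∀ t, q ∣ r₀ + t ↔ q ∣ n + 1 + t) :
    cx f m q r₀ (fe P φ (fun j q => u j q * ee (φ j q * ((n + 1 : ℕ) : ℝ))) q) =
      tx lam q (2 ^ m) n (fam P φ u q) := by
  rw [Pool.Agent.H38.G9.BSU.tx_eq, sum_Ioc_shift]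
  unfold cx wm
  have h1 : ∀ t ∈ range (2 ^ m), (f t : ℂ) * ((DR q (r₀ + t) : ℂ) *
      starRingEnd ℂ (fe P φ (fun j q => u j q * ee (φ j q * ((n + 1 : ℕ) : ℝ))) q t)) =
      (lam (n + 1 + t) : ℂ) * (EB.D q (n + 1 + t) : ℂ) *
        starRingEnd ℂ ((fam P φ u q).f (n + 1 + t)) := by
    intro t ht
    rw [hf t (mem_range.1 ht), fe_shift, mul_assoc]
    congr 2
    unfold DR EB.D
    simp only [hq t]
  rw [sum_congr rfl h1]
  push_cast
  rfl

/-- one window: from the restricted families to the families of the block theorem -/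
theorem win (hN : T_NRS) (P : ℕ) : ∃ (V C : ℝ) (m₁ : ℕ), 1 ≤ V ∧ 0 ≤ C ∧
    ∀ (lam : ℕ → ℝ) (m n : ℕ) (φ : ℕ → ℕ → ℝ) (u : ℕ → ℕ → ℂ), m₁ ≤ m → (∀ n, |lam n| ≤ 1) →
      AdR P m n φ u → FC m P V φ (ct P m n φ u) ∧
      ∀ (f : ℕ → ℝ) (r₀ : ℕ), (∀ t < 2 ^ m, f t = lam (n + 1 + t)) →
        (∀ q ∈ EB.QQ m, ∀ t, q ∣ r₀ + t ↔ q ∣ n + 1 + t) →
        fv lam m n P φ u ≤ fw f m r₀ P φ (ct P m n φ u) + C * (1 / 2) ^ (m / 2000) := by
  obtain ⟨V, m₁, hV, hnfc⟩ := nfc P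
  obtain ⟨m₂, hN⟩ := hN
  obtain ⟨m₃, hM⟩ := Pool.Agent.H72.GS2.mu_le
  refine ⟨V, 3 * (6 + (P : ℝ) ^ 4), max m₁ (max m₂ (max m₃ 400)), hV, by positivity, ?_⟩
  intro lam m n φ u hm hl hA
  have hm1 : m₁ ≤ m := (le_max_left _ _).trans hm
  have hm2 : m₂ ≤ m := (le_max_left _ _).trans ((le_max_right _ _).trans hm)
  have hm3 : m₃ ≤ m := (le_max_left _ _).trans ((le_max_right _ _).trans
    ((le_max_right _ _).trans hm))
  have hm4 : 400 ≤ m := (le_max_right _ _).trans ((le_max_right _ _).trans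
    ((le_max_right _ _).trans hm))
  have hnf := hnfc m n φ u hm1 hA
  constructor
  · refine ⟨⟨fun j q => ?_, hnf.nc, ?_⟩, fun q hq i hi j hj h1 h2 => ?_, fun q hq => ?_⟩
    · by_cases h : ms m (fe P φ (fun j q => u j q * ee (φ j q * ((n + 1 : ℕ) : ℝ))) q) <
        (1 / 2) ^ (m / 1000)
      · rw [ct_cut h, norm_zero]
        exact Nat.cast_nonneg _
      · rw [ct_keep h]
        exact hnf.cb j q
    · obtain ⟨γ, hγ⟩ := hnf.nf
      refine ⟨γ, fun q hq => ?_⟩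
      by_cases h : ms m (fe P φ (fun j q => u j q * ee (φ j q * ((n + 1 : ℕ) : ℝ))) q) <
        (1 / 2) ^ (m / 1000)
      · right
        have h1 : ∑ j ∈ range P, ‖ct P m n φ u j q‖ = 0 :=
          sum_eq_zero fun j _ => by rw [ct_cut h, norm_zero]
        rw [h1]
        have := ms_nonneg m (fe P φ (ct P m n φ u) q)
        positivity
      · have h1 : fe P φ (ct P m n φ u) q =
            fe P φ (fun j q => u j q * ee (φ j q * ((n + 1 : ℕ) : ℝ))) q :=
          fe_congr fun j => ct_keep h j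
        have h2 : ∑ j ∈ range P, ‖ct P m n φ u j q‖ =
            ∑ j ∈ range P, ‖u j q * ee (φ j q * ((n + 1 : ℕ) : ℝ))‖ :=
          sum_congr rfl fun j _ => by rw [ct_keep h]
        rw [h1, h2]
        exact hγ q hq
    · have h3 : ∀ i, ct P m n φ u i q ≠ 0 → u i q ≠ 0 := by
        intro i hi h0
        apply hi
        unfold ct
        split_ifs
        · rfl
        · rw [h0, zero_mul]
      exact hA.ad.cl q hq i hi j hj (h3 i h1) (h3 j h2)
    · by_cases h : ms m (fe P φ (fun j q => u j q * ee (φ j q * ((n + 1 : ℕ) : ℝ))) q) <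
        (1 / 2) ^ (m / 1000)
      · left
        exact fun j _ => ct_cut h j
      · right
        have h1 : fe P φ (ct P m n φ u) q =
            fe P φ (fun j q => u j q * ee (φ j q * ((n + 1 : ℕ) : ℝ))) q :=
          fe_congr fun j => ct_keep h j
        rw [h1]
        exact not_lt.1 h
  · intro f r₀ hf hq
    unfold fv fw
    have hd0 : (0 : ℝ) < (1 / 2) ^ (m / 2000) := by positivity
    have hP0 : (0 : ℝ) ≤ (P : ℝ) ^ 4 := by positivity
    have key : ∀ q ∈ EB.QQ m, 2 * (tx lam q (2 ^ m) n (fam P φ u q)).re -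
        ar 1 (2 ^ m) n (fun x => ‖(fam P φ u q).f x‖ ^ 2) ≤
        (2 * (cx f m q r₀ (fe P φ (ct P m n φ u) q)).re - ms m (fe P φ (ct P m n φ u) q)) +
          (6 + (P : ℝ) ^ 4) * (1 / 2) ^ (m / 2000) := by
      intro q hqm
      by_cases h : ms m (fe P φ (fun j q => u j q * ee (φ j q * ((n + 1 : ℕ) : ℝ))) q) <
        (1 / 2) ^ (m / 1000)
      · -- the cut
        have h0 : fe P φ (ct P m n φ u) q = fun _ => 0 := by
          funext t
          exact fe_zero (fun j => ct_cut h j) t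
        have h1 : cx f m q r₀ (fe P φ (ct P m n φ u) q) = 0 := by
          rw [h0]
          unfold cx wm
          simp
        have h2 : ms m (fe P φ (ct P m n φ u) q) = 0 := by
          rw [h0]
          unfold ms
          simp
        rw [h1, h2, Complex.zero_re]
        rw [ms_shift] at h
        set F := fam P φ u q with hF
        have hq1 : 1 ≤ q := (QQ_bd hqm).1
        have hq2 : q ≤ 2 ^ m := (QQ_bd hqm).2
        have h3 := Pool.Agent.H38.G9.BSU.tx_le lam q (2 ^ m) n F hl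
        have h4 := hN m (2 ^ m) n q F hm2 (by omega) hqm (fun i hi j hj hi0 hj0 =>
          hA.ad.cl q hqm i hi j hj hi0 hj0)
        have hnm : F.nm ≤ (P : ℝ) * P := by
          unfold Ex.nm
          calc ∑ i ∈ range F.k, ‖F.c i‖ ≤ ∑ _i ∈ range P, (P : ℝ) := by
                refine sum_le_sum fun i _ => ?_
                exact hA.ad.cb i q
            _ = (P : ℝ) * P := by rw [sum_const, card_range, nsmul_eq_mul]
        have hnm0 : 0 ≤ F.nm := Pool.Agent.H84.GS.nm_nonneg F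
        have hnm2 : F.nm ^ 2 ≤ (P : ℝ) ^ 4 := by
          calc F.nm ^ 2 ≤ ((P : ℝ) * P) ^ 2 := pow_le_pow_left₀ hnm0 hnm 2
            _ = (P : ℝ) ^ 4 := by ring
        set d : ℝ := (1 / 2) ^ (m / 2000) with hd
        have hd2 : ((1 : ℝ) / 2) ^ (m / 1000) ≤ d ^ 2 := by
          rw [hd, ← pow_mul]
          exact pow_le_pow_of_le_one (by norm_num) (by norm_num) (by omega)
        have hd3 : ((1 : ℝ) / 2) ^ (m / 300) ≤ d ^ 2 := by
          rw [hd, ← pow_mul]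
          exact pow_le_pow_of_le_one (by norm_num) (by norm_num) (by omega)
        set A₁ := ar 1 (2 ^ m) n (fun x => ‖F.f x‖ ^ 2) with hA1
        set Aq := ar q (2 ^ m) n (fun x => ‖F.f x‖ ^ 2) with hAq
        have hA1' : A₁ ≤ d ^ 2 := h.le.trans hd2
        have hA10 : 0 ≤ A₁ := Pool.Agent.H38.G9.BSU.ar_nonneg _ _ _ _ fun x => by positivity
        have hAq' : Aq ≤ (1 + (P : ℝ) ^ 4) * d ^ 2 := by
          have h5 : Aq - A₁ ≤ F.nm ^ 2 * (1 / 2) ^ (m / 300) := by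
            have h6 : nrm q (2 ^ m) n F = Aq - A₁ := rfl
            rw [← h6]
            exact (le_abs_self _).trans h4
          have h7 : F.nm ^ 2 * (1 / 2) ^ (m / 300) ≤ (P : ℝ) ^ 4 * d ^ 2 :=
            mul_le_mul hnm2 hd3 (by positivity) hP0
          linarith
        have h5 := Pool.Agent.H38.G9.BSU.ar_half q (2 ^ m) n (fun x => ‖F.f x‖) d hd0 hq1 hq2
        have h6 := Pool.Agent.H38.G9.BSU.ar_half 1 (2 ^ m) n (fun x => ‖F.f x‖) d hd0 le_rfl
          Nat.one_le_two_pow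
        have h7 : 1 / (2 * d) * Aq ≤ (1 + (P : ℝ) ^ 4) * d / 2 := by
          rw [one_div, inv_mul_le_iff₀ (by positivity)]
          nlinarith
        have h8 : 1 / (2 * d) * A₁ ≤ d / 2 := by
          rw [one_div, inv_mul_le_iff₀ (by positivity)]
          nlinarith
        have h9 : (tx lam q (2 ^ m) n F).re ≤ ‖tx lam q (2 ^ m) n F‖ :=
          (le_abs_self _).trans (Complex.abs_re_le_norm _)
        nlinarith
      · have h1 : fe P φ (ct P m n φ u) q =
            fe P φ (fun j q => u j q * ee (φ j q * ((n + 1 : ℕ) : ℝ))) q :=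
          fe_congr fun j => ct_keep h j
        rw [h1, cx_eq hf (hq q hqm), ms_shift]
        have : 0 ≤ (6 + (P : ℝ) ^ 4) * (1 / 2) ^ (m / 2000) := by positivity
        linarith
    calc ∑ q ∈ EB.QQ m, 1 / (q : ℝ) * (2 * (tx lam q (2 ^ m) n (fam P φ u q)).re -
          ar 1 (2 ^ m) n (fun x => ‖(fam P φ u q).f x‖ ^ 2))
        ≤ ∑ q ∈ EB.QQ m, 1 / (q : ℝ) * ((2 * (cx f m q r₀ (fe P φ (ct P m n φ u) q)).re -
          ms m (fe P φ (ct P m n φ u) q)) + (6 + (P : ℝ) ^ 4) * (1 / 2) ^ (m / 2000)) := by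
          refine sum_le_sum fun q hqm => ?_
          exact mul_le_mul_of_nonneg_left (key q hqm) (by positivity)
      _ = ∑ q ∈ EB.QQ m, 1 / (q : ℝ) * (2 * (cx f m q r₀ (fe P φ (ct P m n φ u) q)).re -
          ms m (fe P φ (ct P m n φ u) q)) +
          (∑ q ∈ EB.QQ m, 1 / (q : ℝ)) * ((6 + (P : ℝ) ^ 4) * (1 / 2) ^ (m / 2000)) := by
          rw [sum_mul, ← sum_add_distrib]
          refine sum_congr rfl fun q _ => ?_
          ring
      _ ≤ _ := by
          have h1 := hM m hm3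
          have h2 : 0 ≤ (6 + (P : ℝ) ^ 4) * (1 / 2) ^ (m / 2000) := by positivity
          have h3 := mul_le_mul_of_nonneg_right h1 h2
          linarith

end Pool.Agent.H3.HB
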